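import Pool.Agent.Lib.HS68.Fun
import Pool.Agent.Lib.HS32.B_MAXE

/-! Project kr24: a holomorphic field of null vectors cannot have a negative minimum of the
holomorphic sectional curvature. -/

namespace Pool.Agent.Lib.K21

open Filter Topology Complex Matrix
open Pool.Agent.Lib.SV (E)
open Pool.Agent.Lib.HS32 Pool.Agent.Lib.HS68
open scoped ContDiff ComplexOrder MatrixOrder Matrix.Norms.L2Operator

noncomputable section

section alg

variable {ι A : Type} [CommRing A] [Fintype ι]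

lemma leib_dot {δ : A →+ A} (h : Leib δ) (u v : ι → A) :
    δ (u ⬝ᵥ v) = (fun j => δ (u j)) ⬝ᵥ v + u ⬝ᵥ fun j => δ (v j) := by
  simp [dotProduct, map_sum, h _ _, Finset.sum_add_distrib]

lemma leib_mulVec {δ : A →+ A} (h : Leib δ) (M : Matrix ι ι A) (v : ι → A) :
    (fun i => δ ((M *ᵥ v) i)) = δ.mapMatrix M *ᵥ v + M *ᵥ fun j => δ (v j) := by
  funext i
  exact leib_dot h (M i) v

lemma tr_vv [DecidableEq ι] {H : Matrix ι ι A} (hu : IsUnit H.det) (x s : ι → A) :
    trace (H⁻¹ * vecMulVec x (s ᵥ* H)) = s ⬝ᵥ x := by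
  rw [mul_vecMulVec, trace_vecMulVec, dotProduct_comm, ← dotProduct_mulVec, mulVec_mulVec,
    mul_nonsing_inv _ hu, one_mulVec]

variable [StarRing A] (D : DR ι A)

/-- The conjugate derivative along a vector. -/
def dv (s : ι → A) : A →+ A where
  toFun a := ∑ l, s l * D.db l a
  map_zero' := by simp
  map_add' a b := by simp [mul_add, Finset.sum_add_distrib]

lemma dv_apply (s : ι → A) (a : A) : dv D s a = ∑ l, s l * D.db l a := rfl

lemma leib_dv (s : ι → A) : Leib (dv D s) := fun a b => by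
  simp only [dv_apply, D.leib_db _ a b, mul_add, Finset.sum_add_distrib, Finset.sum_mul,
    Finset.mul_sum, mul_assoc, mul_left_comm a]

lemma dv_mat (s : ι → A) (M : Matrix ι ι A) :
    (dv D s).mapMatrix M = ∑ l, s l • D.bM l M := by
  ext i j
  simp [dv_apply, Matrix.sum_apply]

variable [DecidableEq ι] (H : Matrix ι ι A) (V : ι → A)

/-- The connection along `V`. -/
def gv : Matrix ι ι A := ∑ j, V j • D.Gam H j

/-- The covariant derivative of `V`. -/
def nv : Matrix ι ι A := (of fun i k => D.d k (V i)) + gv D H V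

/-- The curvature along `V`. -/
def bv (l : ι) : Matrix ι ι A := ∑ j, V j • D.Th H j l

/-- The curvature along `V` and its conjugate. -/
def cv : Matrix ι ι A := ∑ l, star V l • (H * bv D H V l)

variable {D H V}

lemma bM_nv (hV : ∀ l i, D.db l (V i) = 0) (l : ι) : D.bM l (nv D H V) = -bv D H V l := by
  have e : D.bM l (of fun i k => D.d k (V i)) = 0 := by
    ext i k
    simp [← D.d_db, hV]
  rw [nv, map_add, e, zero_add, gv, map_sum, bv, ← Finset.sum_neg_distrib]
  refine Finset.sum_congr rfl fun j _ => ?_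
  rw [D.bM_smul, hV, zero_smul, zero_add, DR.Th, smul_neg, neg_neg]

lemma bM_bv (hV : ∀ l i, D.db l (V i) = 0) (m l : ι) :
    D.bM m (bv D H V l) = D.bM l (bv D H V m) := by
  rw [← neg_neg (bv D H V l), ← neg_neg (bv D H V m), ← bM_nv hV, ← bM_nv hV, map_neg, map_neg,
    D.bM_bM]

lemma bv_symm (hG : H.IsHermitian) (hu : IsUnit H.det) (hK : D.Kah H) (l b a : ι) :
    (H * bv D H V l) b a = (H * bv D H V b) l a := by
  simp only [bv, Matrix.mul_sum, Matrix.mul_smul, Matrix.sum_apply, Matrix.smul_apply,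
    D.mul_Th_symm' hG hu hK _ l a b]

lemma gv_star : (gv D H V)ᴴ = ∑ l, star V l • (D.Gam H l)ᴴ := by
  simp only [gv, conjTranspose_sum, conjTranspose_smul, Pi.star_apply]

lemma vm_gam (hK : D.Kah H) (m : ι) : star V ᵥ* (D.Gam H m)ᴴ = (gv D H V)ᴴ m := by
  funext p
  rw [gv_star]
  simp only [vecMul, dotProduct, Matrix.sum_apply, Matrix.smul_apply, conjTranspose_apply,
    smul_eq_mul, D.Gam_symm hK p m]

lemma db_su (hG : H.IsHermitian) (hu : IsUnit H.det) (hK : D.Kah H) (m a : ι) :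
    D.db m ((star V ᵥ* H) a) = ((nv D H V)ᴴ * H) m a := by
  have e : (fun j => D.db m (H j a)) = fun j => ((D.Gam H m)ᴴ * H) j a := by
    rw [← D.bM_eq hG hu]; rfl
  have e2 : star V ⬝ᵥ (fun j => ((D.Gam H m)ᴴ * H) j a) = ((gv D H V)ᴴ * H) m a := by
    change (star V ᵥ* ((D.Gam H m)ᴴ * H)) a = _
    rw [← vecMul_vecMul, vm_gam hK]; rfl
  change D.db m (star V ⬝ᵥ fun j => H j a) = _
  rw [leib_dot (D.leib_db m), e, e2, nv, conjTranspose_add, Matrix.add_mul, Matrix.add_apply]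
  congr 1
  simp [dotProduct, Matrix.mul_apply, D.star_d]

lemma db_nn (hG : H.IsHermitian) (hu : IsUnit H.det) (hK : D.Kah H)
    (hV : ∀ l i, D.db l (V i) = 0) (m : ι) :
    D.db m (star V ⬝ᵥ H *ᵥ V) = ((nv D H V)ᴴ *ᵥ (H *ᵥ V)) m := by
  rw [dotProduct_mulVec, leib_dot (D.leib_db m)]
  simp only [db_su hG hu hK, hV, mulVec_mulVec]
  simp [dotProduct, mulVec]

/-- The derivative of the contracted curvature. -/
lemma om_eq (hG : H.IsHermitian) (hu : IsUnit H.det) (hK : D.Kah H)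
    (hV : ∀ l i, D.db l (V i) = 0) :
    (of fun m a => D.db m ((star V ᵥ* cv D H V) a)) =
      (nv D H V)ᴴ * cv D H V + (nv D H V)ᴴ * cv D H V +
        H * ∑ b, star V b • (dv D (star V)).mapMatrix (bv D H V b) -
        H * ∑ p, (star V ᵥ* (gv D H V)ᴴ) p • bv D H V p := by
  set s : ι → A := star V with hs
  set J : Matrix ι ι A := of fun i k => D.d k (V i) with hJ
  set L : Matrix ι ι A := (gv D H V)ᴴ with hL
  set C : Matrix ι ι A := cv D H V with hC
  set T : ι → Matrix ι ι A := fun l => H * bv D H V l with hT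
  have hsy : ∀ l b a, T l b a = T b l a := bv_symm hG hu hK
  have hCa : ∀ b a, C b a = ∑ l, s l * T l b a := fun b a => by
    simp only [hC, cv, Matrix.sum_apply, Matrix.smul_apply, smul_eq_mul, hs, hT]
  have hJs : ∀ m l, D.db m (s l) = Jᴴ m l := fun m l => by
    simp [hs, hJ, D.star_d]
  have hdH : (dv D s).mapMatrix H = L * H := by
    rw [dv_mat, hL, gv_star, Matrix.sum_mul]
    exact Finset.sum_congr rfl fun l _ => by rw [D.bM_eq hG hu, Matrix.smul_mul]
  have hdT : ∀ l, (dv D s).mapMatrix (T l) =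
      L * T l + H * (dv D s).mapMatrix (bv D H V l) := fun l => by
    rw [hT, (leib_dv D s).matrix, hdH, Matrix.mul_assoc]
  ext m a
  have e1 : D.bM m C = ∑ l, Jᴴ m l • T l + (D.Gam H m)ᴴ * C +
      H * (dv D s).mapMatrix (bv D H V m) := by
    rw [dv_mat, hC, cv, map_sum, Matrix.mul_sum, Matrix.mul_sum, ← Finset.sum_add_distrib,
      ← Finset.sum_add_distrib]
    refine Finset.sum_congr rfl fun l _ => ?_
    rw [D.bM_smul, D.bM_mul, D.bM_eq hG hu, bM_bv hV m l, ← hs, hJs, smul_add, Matrix.mul_smul,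
      Matrix.mul_smul, Matrix.mul_assoc, add_assoc]
  have e2 : s ⬝ᵥ (fun b => (∑ l, Jᴴ m l • T l) b a) = (Jᴴ * C) m a := by
    simp only [dotProduct, Matrix.sum_apply, Matrix.smul_apply, smul_eq_mul, Matrix.mul_apply,
      hCa, Finset.mul_sum]
    rw [Finset.sum_comm]
    exact Finset.sum_congr rfl fun l _ => Finset.sum_congr rfl fun b _ => by
      rw [hsy l b a]; ring
  have e3 : s ⬝ᵥ (fun b => ((D.Gam H m)ᴴ * C) b a) = (L * C) m a := by
    change (s ᵥ* ((D.Gam H m)ᴴ * C)) a = _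
    rw [← vecMul_vecMul, hs, vm_gam hK]; rfl
  have e4 : ∀ b, (H * (dv D s).mapMatrix (bv D H V m)) b a = (L * T b) m a +
      (H * (dv D s).mapMatrix (bv D H V b)) m a - (L * T m) b a := fun b => by
    have a1 := congrFun (congrFun (hdT m) b) a
    have a2 := congrFun (congrFun (hdT b) m) a
    simp only [AddMonoidHom.mapMatrix_apply, map_apply, Matrix.add_apply] at a1 a2 ⊢
    rw [hsy m b a, a2] at a1
    linear_combination -a1
  have e5 : s ⬝ᵥ (fun b => (L * T b) m a) = (L * C) m a := by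
    simp only [dotProduct, Matrix.mul_apply, hCa, Finset.mul_sum]
    rw [Finset.sum_comm]
    exact Finset.sum_congr rfl fun l _ => Finset.sum_congr rfl fun b _ => by ring
  have e6 : s ⬝ᵥ (fun b => (L * T m) b a) = (H * ∑ p, (s ᵥ* L) p • bv D H V p) m a := by
    change (s ᵥ* (L * T m)) a = _
    rw [← vecMul_vecMul, Matrix.mul_sum, Matrix.sum_apply]
    refine Finset.sum_congr rfl fun p _ => ?_
    rw [Matrix.mul_smul, Matrix.smul_apply, smul_eq_mul]
    exact congrArg _ (hsy m p a)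
  have e7 : s ⬝ᵥ (fun b => (H * (dv D s).mapMatrix (bv D H V b)) m a) =
      (H * ∑ b, s b • (dv D s).mapMatrix (bv D H V b)) m a := by
    rw [Matrix.mul_sum, Matrix.sum_apply]
    exact Finset.sum_congr rfl fun p _ => by rw [Matrix.mul_smul]; rfl
  have e8 : (fun b => D.db m (C b a)) = (fun b => (∑ l, Jᴴ m l • T l) b a) +
      (fun b => ((D.Gam H m)ᴴ * C) b a) + ((fun b => (L * T b) m a) +
      (fun b => (H * (dv D s).mapMatrix (bv D H V b)) m a) - fun b => (L * T m) b a) := by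
    funext b
    simp only [Pi.add_apply, Pi.sub_apply, ← e4]
    exact congrFun (congrFun e1 b) a
  have e9 : (nv D H V)ᴴ * C = Jᴴ * C + L * C := by
    rw [nv, conjTranspose_add, Matrix.add_mul]
  change D.db m (s ⬝ᵥ fun b => C b a) = _
  rw [leib_dot (D.leib_db m), e8, dotProduct_add, dotProduct_add, dotProduct_sub, dotProduct_add,
    e2, e3, e5, e6, e7, e9]
  simp only [hJs, Matrix.add_apply, Matrix.sub_apply]
  have e0 : (fun j => Jᴴ m j) ⬝ᵥ (fun b => C b a) = (Jᴴ * C) m a := rfl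
  rw [e0]
  ring

/-- The two identities. -/
theorem ident (hG : H.IsHermitian) (hu : IsUnit H.det) (hK : D.Kah H)
    (hV : ∀ l i, D.db l (V i) = 0) {f r c : A} (hf : star f = f) (hr : star r = r)
    (hc : star c = c) (hr0 : ∀ l, D.db l r = 0) (hc0 : ∀ l, D.db l c = 0)
    (h1 : cv D H V = (f * r * (star V ⬝ᵥ H *ᵥ V)) • H +
      (f * (1 - r)) • vecMulVec (H *ᵥ V) (star V ᵥ* H))
    (h2 : D.Ric H *ᵥ V = (-(c * f)) • H *ᵥ V) :
    ∃ (y : ι → A) (t N p g : A), N = star V ⬝ᵥ H *ᵥ V ∧ p = star V ⬝ᵥ H *ᵥ y ∧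
      g = ∑ k, V k * D.d k f ∧ (1 + c) * N * g + f * (1 - 2 * r) * (N * t - p) = 0 ∧
      (1 + c) * (star p * g + N * (star V ⬝ᵥ D.hess f *ᵥ V)) +
        star g * (1 - 2 * r) * (N * t - p) + f * (1 - 2 * r) *
          (star p * t - star y ⬝ᵥ H *ᵥ y + (1 + c) * f * N ^ 2) = 0 := by
  set s : ι → A := star V with hs
  set u : ι → A := H *ᵥ V with hu'
  set N : A := s ⬝ᵥ u with hN
  set L : Matrix ι ι A := nv D H V with hL
  have lv := leib_dv D s
  have hsu : star u = s ᵥ* H := by rw [hu', star_mulVec, hG.eq]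
  have hsuV : (s ᵥ* H) ⬝ᵥ V = N := by rw [← dotProduct_mulVec]
  have hNs : star N = N := by
    have := star_dotProduct V u
    rw [hsu, hsuV] at this
    exact this.symm
  have htr : ∀ l, trace (bv D H V l) = -(c * f) * u l := fun l => by
    have := congrFun h2 l
    rw [Pi.smul_apply, smul_eq_mul] at this
    rw [← this, bv, trace_sum]
    simp [DR.Ric, mulVec, dotProduct, mul_comm]
  have hdv0 : ∀ i, dv D s (V i) = 0 := fun i => by simp [dv_apply, hV]
  have hdc : dv D s c = 0 := by simp [dv_apply, hc0]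
  have hdr : dv D s r = 0 := by simp [dv_apply, hr0]
  have hd1 : dv D s 1 = 0 := lv.one
  have hdH : (dv D s).mapMatrix H = (gv D H V)ᴴ * H := by
    rw [dv_mat, gv_star, Matrix.sum_mul]
    exact Finset.sum_congr rfl fun l _ => by rw [D.bM_eq hG hu, Matrix.smul_mul]
  have hdu : (fun i => dv D s (u i)) = (gv D H V)ᴴ *ᵥ u := by
    rw [hu', leib_mulVec lv, hdH, mulVec_mulVec]
    simp only [hdv0]
    exact (congrArg _ (mulVec_zero _)).trans (add_zero _)
  have hsC : s ᵥ* cv D H V = (f * N) • (s ᵥ* H) := by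
    rw [h1, vecMul_add, vecMul_smul, vecMul_smul, vecMul_vecMulVec, ← hN, smul_smul, ← add_smul]
    congr 1
    ring
  have hom := om_eq (D := D) hG hu hK hV
  have hom2 : (of fun m a => D.db m ((s ᵥ* cv D H V) a)) =
      vecMulVec (N • (fun m => D.db m f) + f • (Lᴴ *ᵥ u)) (s ᵥ* H) + (f * N) • (Lᴴ * H) := by
    ext m a
    rw [hsC, of_apply, Pi.smul_apply, smul_eq_mul, D.leib_db, D.leib_db, hs, db_su hG hu hK,
      hN, hs, hu', db_nn hG hu hK hV]
    simp only [Matrix.add_apply, vecMulVec_apply, Pi.add_apply, Pi.smul_apply, smul_eq_mul,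
      Matrix.smul_apply, hL]
    ring
  have cyc : trace (H⁻¹ * (Lᴴ * H)) = trace Lᴴ := by
    rw [trace_mul_comm, Matrix.mul_assoc, mul_nonsing_inv _ hu, Matrix.mul_one]
  have can : ∀ X : Matrix ι ι A, H⁻¹ * (H * X) = X := fun X => by
    rw [← Matrix.mul_assoc, nonsing_inv_mul _ hu, Matrix.one_mul]
  have t1 : trace (H⁻¹ * (Lᴴ * cv D H V)) =
      f * r * N * trace Lᴴ + f * (1 - r) * (s ⬝ᵥ Lᴴ *ᵥ u) := by
    rw [h1, Matrix.mul_add, Matrix.mul_smul, Matrix.mul_smul, mul_vecMulVec, Matrix.mul_add,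
      Matrix.mul_smul, Matrix.mul_smul, trace_add, trace_smul, trace_smul, tr_vv hu, cyc,
      smul_eq_mul, smul_eq_mul]
  have t2 : trace (∑ b, s b • (dv D s).mapMatrix (bv D H V b)) =
      -(c * dv D s f * N) - c * f * (s ⬝ᵥ (gv D H V)ᴴ *ᵥ u) := by
    have : ∀ b, trace ((dv D s).mapMatrix (bv D H V b)) =
        -(c * dv D s f) * u b - c * f * ((gv D H V)ᴴ *ᵥ u) b := fun b => by
      have e : trace ((dv D s).mapMatrix (bv D H V b)) = dv D s (trace (bv D H V b)) := by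
        simp [trace, map_sum]
      rw [e, htr, lv, map_neg, lv, hdc, ← hdu]
      ring
    simp only [trace_sum, trace_smul, this, smul_eq_mul, hN, dotProduct, Finset.mul_sum,
      ← Finset.sum_neg_distrib, ← Finset.sum_sub_distrib]
    exact Finset.sum_congr rfl fun b _ => by ring
  have t3 : trace (∑ p, (s ᵥ* (gv D H V)ᴴ) p • bv D H V p) =
      -(c * f * (s ⬝ᵥ (gv D H V)ᴴ *ᵥ u)) := by
    rw [dotProduct_mulVec]
    simp only [trace_sum, trace_smul, htr, smul_eq_mul, dotProduct, Finset.mul_sum,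
      ← Finset.sum_neg_distrib]
    exact Finset.sum_congr rfl fun b _ => by ring
  have key := congrArg (fun X => trace (H⁻¹ * X)) (hom2.symm.trans hom)
  simp only [Matrix.mul_add, Matrix.mul_sub, trace_add, trace_sub, Matrix.mul_smul, trace_smul,
    tr_vv hu, can, ← hs, ← hL, cyc, t1, t2, t3, dotProduct_add, dotProduct_smul,
    smul_eq_mul] at key
  have hg : star (∑ k, V k * D.d k f) = dv D s f := by
    simp [dv_apply, hs, D.star_d, hf]
  have hg' : s ⬝ᵥ (fun m => D.db m f) = dv D s f := rfl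
  have hp : star (s ⬝ᵥ H *ᵥ (L *ᵥ V)) = s ⬝ᵥ Lᴴ *ᵥ u := by
    rw [dotProduct_mulVec, ← hsu, star_dotProduct, star_star, star_mulVec, ← dotProduct_mulVec]
  rw [hg', ← hg, ← hp, trace_conjTranspose] at key
  have i1 : (1 + c) * N * (∑ k, V k * D.d k f) +
      f * (1 - 2 * r) * (N * trace L - s ⬝ᵥ H *ᵥ (L *ᵥ V)) = 0 := by
    have k2 := congrArg star key
    simp only [star_add, star_sub, star_mul', star_neg, star_star, hf, hr, hc, hNs,
      star_one] at k2
    have k3 : ∀ x : A, -(c * (∑ k, V k * D.d k f) * N) - x - -x =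
        -(c * (∑ k, V k * D.d k f) * N) := fun x => by ring
    linear_combination k2
  refine ⟨L *ᵥ V, trace L, N, _, _, rfl, rfl, rfl, i1, ?_⟩
  have d1 : dv D s N = s ⬝ᵥ Lᴴ *ᵥ u := by
    rw [dv_apply, hN, hs, hu']
    simp only [db_nn hG hu hK hV]
    rfl
  have d2 : dv D s (∑ k, V k * D.d k f) = s ⬝ᵥ D.hess f *ᵥ V := by
    simp only [map_sum, lv _ _, hdv0, zero_mul, zero_add]
    simp only [dv_apply, dotProduct, mulVec, DR.hess, of_apply, Finset.mul_sum]
    rw [Finset.sum_comm]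
    exact Finset.sum_congr rfl fun l _ => Finset.sum_congr rfl fun b _ => by ring
  have dL : (dv D s).mapMatrix L = -∑ l, s l • bv D H V l := by
    rw [dv_mat, ← Finset.sum_neg_distrib]
    exact Finset.sum_congr rfl fun l _ => by rw [hL, bM_nv hV, smul_neg]
  have d3 : dv D s (trace L) = c * f * N := by
    have e : dv D s (trace L) = trace ((dv D s).mapMatrix L) := by simp [trace, map_sum]
    rw [e, dL, trace_neg, trace_sum, hN, dotProduct, Finset.mul_sum, ← Finset.sum_neg_distrib]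
    exact Finset.sum_congr rfl fun l _ => by rw [trace_smul, htr, smul_eq_mul]; ring
  have d4 : dv D s (s ⬝ᵥ H *ᵥ (L *ᵥ V)) = star (L *ᵥ V) ⬝ᵥ H *ᵥ (L *ᵥ V) - f * N ^ 2 := by
    have e1 : (fun j => dv D s ((s ᵥ* H) j)) = star (L *ᵥ V) ᵥ* H := by
      funext j
      rw [dv_apply, star_mulVec, vecMul_vecMul, hs]
      simp only [db_su hG hu hK]
      rfl
    have e2 : H * ∑ l, s l • bv D H V l = cv D H V := by
      rw [cv, Matrix.mul_sum]
      exact Finset.sum_congr rfl fun l _ => Matrix.mul_smul _ _ _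
    have e3 : (fun j => dv D s (V j)) = 0 := funext hdv0
    rw [dotProduct_mulVec, leib_dot lv, e1, leib_mulVec lv, dL, e3, mulVec_zero, add_zero,
      neg_mulVec, dotProduct_neg, ← dotProduct_mulVec, ← dotProduct_mulVec s,
      mulVec_mulVec V H (∑ l, s l • bv D H V l), e2, dotProduct_mulVec s, hsC, smul_dotProduct,
      hsuV, smul_eq_mul]
    ring
  have k4 := congrArg (dv D s) i1
  have two : dv D s (2 * r) = 0 := by rw [two_mul, map_add, hdr, add_zero]
  simp only [map_add, map_sub, lv _ N, lv _ (∑ k, V k * D.d k f), lv N, lv f,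
    lv (f * (1 - 2 * r)), two, hd1, hdc, d1, d2, d3, d4, map_zero] at k4
  rw [hg, hp]
  linear_combination k4

end alg

variable {n : ℕ}

/-- The value of a germ. -/
def val (z : E n) : Gm z →+* ℂ := Germ.valueRingHom.comp (Gm z).subtype

lemma val_rep {z : E n} {a : Gm z} {f : E n → ℂ} (h : Rep a f) : val z a = f z := by
  change Germ.value a.1 = _
  rw [← h]; rfl

lemma val_star {z : E n} (a : Gm z) : val z (star a) = star (val z a) := by
  obtain ⟨f, hf⟩ := rep_exists a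
  rw [val_rep hf.star, val_rep hf]

lemma val_form {z : E n} {M : Matrix (Fin n) (Fin n) (Gm z)} {F : E n → Mat n} (hM : RepM M F)
    (a b : Fin n → Gm z) : val z (star a ⬝ᵥ M *ᵥ b) =
      star (fun i => val z (a i)) ⬝ᵥ F z *ᵥ fun i => val z (b i) := by
  simp only [dotProduct, mulVec, map_sum, map_mul, Pi.star_apply, val_star, val_rep (hM _ _)]

lemma cs {P : Mat n} (hP : P.PosSemidef) (v y : E n) :
    normSq (star v ⬝ᵥ P *ᵥ y) ≤ (star v ⬝ᵥ P *ᵥ v).re * (star y ⬝ᵥ P *ᵥ y).re := by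
  obtain ⟨W, hW⟩ := CStarAlgebra.nonneg_iff_eq_star_mul_self.1 hP.nonneg
  have e : ∀ a b : E n, star a ⬝ᵥ P *ᵥ b =
      inner ℂ (WithLp.toLp 2 (W *ᵥ a)) (WithLp.toLp 2 (W *ᵥ b)) := fun a b => by
    rw [hW, EuclideanSpace.inner_toLp_toLp, star_eq_conjTranspose, ← mulVec_mulVec,
      dotProduct_mulVec, ← star_mulVec, dotProduct_comm]
  rw [e, e, e, normSq_eq_norm_sq]
  have h1 := norm_inner_le_norm (𝕜 := ℂ) (WithLp.toLp 2 (W *ᵥ v)) (WithLp.toLp 2 (W *ᵥ y))
  have h2 : ∀ x : EuclideanSpace ℂ (Fin n), (inner ℂ x x).re = ‖x‖ ^ 2 := fun x =>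
    inner_self_eq_norm_sq (𝕜 := ℂ) x
  rw [h2, h2, ← mul_pow]
  exact pow_le_pow_left₀ (norm_nonneg _) h1 2

/-- The contradiction at a negative minimum. -/
theorem loc_contra {H : E n → Mat n} {V : E n → E n} {f : E n → ℝ} {z : E n} {ρ c : ℝ}
    (hL : Loc H z) (hK : Kl H z) (hV : ContDiffAt ℝ ∞ V z)
    (hol : ∀ᶠ w in 𝓝 z, ∀ l i, dzb l (fun y => V y i) w = 0) (hV0 : V z ≠ 0)
    (hf : ContDiffAt ℝ ∞ f z) (hρ : ρ < 1 / 2) (hc : -1 < c)
    (h1 : ∀ᶠ w in 𝓝 z, ∀ X Y, rm H w (V w) (V w) X Y = f w *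
      (ρ * (star (V w) ⬝ᵥ H w *ᵥ V w) * (star Y ⬝ᵥ H w *ᵥ X) +
        (1 - ρ) * (star (V w) ⬝ᵥ H w *ᵥ X) * (star Y ⬝ᵥ H w *ᵥ V w)))
    (h2 : ∀ᶠ w in 𝓝 z, ricF H w *ᵥ V w = (-(c * f w : ℂ)) • H w *ᵥ V w)
    (hmin : IsLocalMin f z) (hneg : f z < 0) : False := by
  obtain ⟨M, hM, hG, hu⟩ := hL.rep
  choose W hW using fun i => exists_rep (z := z) (contDiffAt_pi.1 hV i)
  have hfc : ContDiffAt ℝ ∞ (fun w => (f w : ℂ)) z := ofRealCLM.contDiff.contDiffAt.comp z hf
  obtain ⟨F, hF⟩ := exists_rep hfc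
  obtain ⟨r, hr⟩ := exists_rep (z := z) (contDiffAt_const (c := (ρ : ℂ)))
  obtain ⟨k, hk⟩ := exists_rep (z := z) (contDiffAt_const (c := (c : ℂ)))
  have cst : ∀ (a : Gm z) (x : ℝ), Rep a (fun _ => (x : ℂ)) →
      star a = a ∧ ∀ l, (germDR z).db l a = 0 := fun a x ha =>
    ⟨ha.star.ext ha (by simp), fun l => (ha.db l).ext Rep.zero
      (Eventually.of_forall fun w => by simp [wb])⟩
  have hmv : ∀ {N : Matrix (Fin n) (Fin n) (Gm z)} {G : E n → Mat n}, RepM N G → ∀ i,
      Rep ((N *ᵥ W) i) fun w => (G w *ᵥ V w) i := fun hN i =>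
    Rep.sum Finset.univ fun j => (hN i j).mul (hW j)
  have hvm : ∀ i, Rep ((star W ᵥ* M) i) fun w => (star (V w) ᵥ* H w) i := fun i =>
    Rep.sum Finset.univ fun j => (hW j).star.mul (hM j i)
  have hN : Rep (star W ⬝ᵥ M *ᵥ W) fun w => star (V w) ⬝ᵥ H w *ᵥ V w :=
    Rep.sum Finset.univ fun j => (hW j).star.mul (hmv hM j)
  have hcv : RepM (cv (germDR z) M W)
      fun w => ∑ l, star (V w) l • (H w * ∑ j, V w j • th H j l w) :=
    RepM.sum _ fun l => RepM.smul (hW l).star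
      (hM.mul (RepM.sum _ fun j => RepM.smul (hW j) (hM.th hL.det_ne j l)))
  have hvv : RepM (vecMulVec (M *ᵥ W) (star W ᵥ* M))
      fun w => vecMulVec (H w *ᵥ V w) (star (V w) ᵥ* H w) := fun i j => (hmv hM i).mul (hvm j)
  obtain ⟨y, t, N, p, g, eN, ep, eg, i1, i2⟩ := ident hG hu (hM.kl hK)
    (fun l i => ((hW i).db l).ext Rep.zero (hol.mono fun w hw => hw l i))
    (hF.star.ext hF (by simp)) (cst r ρ hr).1 (cst k c hk).1 (cst r ρ hr).2 (cst k c hk).2
    (hcv.ext ((RepM.smul ((hF.mul hr).mul hN) hM).add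
      (RepM.smul (hF.mul (Rep.one.sub hr)) hvv)) (h1.mono fun w hw => by
        ext b a
        have := hw (Pi.single a 1) (Pi.single b 1)
        simp only [rm, mulVec_single_one, Pi.star_single, star_one, single_one_dotProduct,
          Matrix.col_apply] at this
        simp only [Matrix.sum_apply, Matrix.smul_apply, Matrix.mul_sum, Matrix.mul_smul,
          smul_eq_mul, Finset.mul_sum, Matrix.add_apply, vecMulVec_apply, Pi.star_apply]
        rw [Finset.sum_comm]
        have e : (star (V w) ᵥ* H w) a = star (V w) ⬝ᵥ (H w).col a := rfl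
        rw [e]
        refine Eq.trans (Finset.sum_congr rfl fun i _ => Finset.sum_congr rfl fun j _ => ?_)
          (this.trans (by ring))
        ring))
    (funext fun i => (hmv (hL.rep_ric hM) i).ext ((hk.mul hF).neg.mul (hmv hM i))
      (h2.mono fun w hw => congrFun hw i))
  have hmx := stMAXE n (fun w => -f w) z hf.neg hmin.neg
  have hF' : Rep (-F) fun w => ((-f w : ℝ) : ℂ) := hF.neg.congr (by simp)
  have hWz : (fun i => val z (W i)) = V z := funext fun i => val_rep (hW i)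
  have g0 : val z g = 0 := by
    rw [eg, map_sum]
    refine Finset.sum_eq_zero fun j _ => ?_
    have := val_rep (hF'.d j)
    rw [map_neg, map_neg, neg_eq_iff_eq_neg] at this
    rw [map_mul, this]
    exact mul_eq_zero_of_right _ (neg_eq_zero.2 (hmx.2 j).1)
  have hh : 0 ≤ val z (star W ⬝ᵥ (germDR z).hess F *ᵥ W) := by
    have e : (germDR z).hess F = -(germDR z).hess (-F) := by
      ext1 i j
      simp [DR.hess]
    rw [e, val_form hF'.hess.neg, hWz]
    exact hmx.1.dotProduct_mulVec_nonneg _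
  have j1 := congrArg (val z) i1
  have j2 := congrArg (val z) i2
  have vN : val z N = star (V z) ⬝ᵥ H z *ᵥ V z := by rw [eN, val_form hM, hWz]
  have vp : val z p = star (V z) ⬝ᵥ H z *ᵥ fun i => val z (y i) := by rw [ep, val_form hM, hWz]
  have hcs := cs hL.pos.posSemidef (V z) fun i => val z (y i)
  have hN0 := hL.pos.dotProduct_mulVec_pos hV0
  have hq := hL.pos.posSemidef.dotProduct_mulVec_nonneg fun i => val z (y i)
  rw [← vp, ← vN, ← val_form hM] at hcs
  rw [← vN] at hN0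
  rw [← val_form hM] at hq
  simp only [map_add, map_mul, map_sub, map_pow, map_one, map_zero, map_ofNat, val_star, g0,
    val_rep hF, val_rep hr, val_rep hk, star_zero, mul_zero, zero_mul, zero_add, add_zero] at j1 j2
  obtain ⟨a, ha, ea⟩ : ∃ a : ℝ, 0 < a ∧ val z N = a :=
    ⟨(val z N).re, (pos_iff.1 hN0).1, Complex.ext rfl (pos_iff.1 hN0).2.symm⟩
  obtain ⟨b, hb, eb⟩ : ∃ b : ℝ, 0 ≤ b ∧ val z (star W ⬝ᵥ (germDR z).hess F *ᵥ W) = b :=
    ⟨_, (nonneg_iff.1 hh).1, Complex.ext rfl (nonneg_iff.1 hh).2.symm⟩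
  obtain ⟨q, eq⟩ : ∃ q : ℝ, val z (star y ⬝ᵥ M *ᵥ y) = q :=
    ⟨_, Complex.ext rfl (nonneg_iff.1 hq).2.symm⟩
  rw [ea, eq, ofReal_re, ofReal_re] at hcs
  rw [ea] at j1
  rw [ea, eb, eq] at j2
  have e3 : star (val z p) * val z p = (normSq (val z p) : ℝ) := normSq_eq_conj_mul_self.symm
  have j3 : (((1 + c) * (a * a * b) + f z * (1 - 2 * ρ) *
      (normSq (val z p) - a * q + (1 + c) * f z * a ^ 3) : ℝ) : ℂ) = 0 := by
    push_cast
    rw [← e3]
    linear_combination (a : ℂ) * j2 - star (val z p) * j1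
  have j4 := ofReal_eq_zero.1 j3
  have p1 : 0 ≤ (1 + c) * (a * a * b) := mul_nonneg (by linarith) (by positivity)
  have p2 : (1 + c) * f z * a ^ 3 < 0 :=
    mul_neg_of_neg_of_pos (mul_neg_of_pos_of_neg (by linarith) hneg) (by positivity)
  have p3 : f z * (1 - 2 * ρ) < 0 := mul_neg_of_neg_of_pos hneg (by linarith)
  have p4 := mul_pos_of_neg_of_neg p3
    (show normSq (val z p) - a * q + (1 + c) * f z * a ^ 3 < 0 by linarith)
  linarith

end

end Pool.Agent.Lib.K21
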